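import Pool.Agent.C75W.P10.PZ14b.Dat
import Pool.Agent.C75W.M

/-!
MP_c75db0, Plan W: data of the cell PZ14b (written by cw12, helper51).
-/

set_option autoImplicit false
set_option maxRecDepth 100000
set_option linter.defProp false
noncomputable section
namespace Pool.Agent.C75W.P10.PZ14b

open Pool.Agent.Helper86.C75 (Z)
open Pool.Agent.Helper86.CT (N3)
open Pool.Agent.Helper86.CX (Cx)
open Pool.Agent.Helper12.NKT (CovD Fm Le Lt Lt1 ck)
open Pool.Agent.Helper17.N9 (Kf)
open Pool.Agent.Helper91.BX (Bx Sb)
open Pool.Agent.Helper62.TVM (C9 C3)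
open Pool.Agent.Helper51.FR (LE)
open Pool.Agent.Helper26.SF (Sf)
open Pool.Agent.Helper82.TST (Fr)
open Pool.Agent.Helper21.SW (S9 Mu M4 SE z9)
open Pool.Agent.Helper6.MONO (fB)
open Pool.Agent.Helper6.MONO.W2.TY (r4T)
open Pool.Agent.Helper91.BX (PcG QB)
open Pool.Agent.Helper91.TMK.SW
open Pool.Agent.Helper21.TC
def b35_0 : i1S (Pool.Agent.C75W.M.IM C dn) C (nat_lit 35) v35_0 [
    [(⟨(nat_lit 3992804), (Z.m (nat_lit 3781368140131))⟩, ⟨(nat_lit 2771181287758470656), (nat_lit 2771181287758470656), (nat_lit 281474976710656), (nat_lit 281474976710656), (nat_lit 292100592552992), (nat_lit 270849360868320)⟩),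
     (⟨(nat_lit 231839), (Z.m (nat_lit 1030313322082))⟩, ⟨(nat_lit 1199386695159702528), (nat_lit 1199386695159702528), (nat_lit 281474976710656), (nat_lit 281474976710656), (nat_lit 292942408688150), (nat_lit 270007544733164)⟩),
     (⟨(nat_lit 14079), (Z.m (nat_lit 254101735820))⟩, ⟨(nat_lit 390165883920963840), (nat_lit 390165883920963840), (nat_lit 281474976710656), (nat_lit 281474976710656), (nat_lit 297932187521454), (nat_lit 265017765899858)⟩),
     (⟨(nat_lit 247106), (Z.m (nat_lit 717775598760))⟩, ⟨(nat_lit 885069392506497920), (nat_lit 885069392506497920), (nat_lit 281474976710656), (nat_lit 281474976710656), (nat_lit 294821865522818), (nat_lit 268128087898494)⟩),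
     (⟨(nat_lit 30848), (Z.m (nat_lit 208009077480))⟩, ⟨(nat_lit 315618210539229952), (nat_lit 315618210539229952), (nat_lit 281474976710656), (nat_lit 281474976710656), (nat_lit 295970054384324), (nat_lit 266979899036988)⟩),
     (⟨(nat_lit 236099), (Z.m (nat_lit 784321750570))⟩, ⟨(nat_lit 908928433974604928), (nat_lit 908928433974604928), (nat_lit 281474976710656), (nat_lit 281474976710656), (nat_lit 295353203673868), (nat_lit 267596749747444)⟩)],
    [(⟨(nat_lit 168621), (Z.m (nat_lit 914606426849))⟩, ⟨(nat_lit 1875728254283752448), (nat_lit 1875728254283752448), (nat_lit 281474976710656), (nat_lit 281474976710656), (nat_lit 293045045020868), (nat_lit 269904908400444)⟩),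
     (⟨(nat_lit 26194), (Z.m (nat_lit 228459360857))⟩, ⟨(nat_lit 710503678929913344), (nat_lit 710503678929913344), (nat_lit 281474976710656), (nat_lit 281474976710656), (nat_lit 297683138932236), (nat_lit 265266814489076)⟩),
     (⟨(nat_lit 22600), (Z.m (nat_lit 231592604786))⟩, ⟨(nat_lit 610048836068079232), (nat_lit 610048836068079232), (nat_lit 281474976710656), (nat_lit 281474976710656), (nat_lit 296281442341784), (nat_lit 266668511079528)⟩)],
    [(⟨(nat_lit 2772946), (Z.m (nat_lit 2238210046783))⟩, ⟨(nat_lit 4246723292239244800), (nat_lit 4246723292239244800), (nat_lit 281474976710656), (nat_lit 281474976710656), (nat_lit 290957029529464), (nat_lit 271992923891848)⟩),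
     (⟨(nat_lit 90452), (Z.m (nat_lit 448963634984))⟩, ⟨(nat_lit 1878013437249983232), (nat_lit 1878013437249983232), (nat_lit 281474976710656), (nat_lit 281474976710656), (nat_lit 293328214833170), (nat_lit 269621738588142)⟩),
     (⟨(nat_lit 8814), (Z.m (nat_lit 74405933589))⟩, ⟨(nat_lit 216482548738720544), (nat_lit 216482548738720544), (nat_lit 281474976710656), (nat_lit 281474976710656), (nat_lit 297805223601732), (nat_lit 265144729819580)⟩),
     (⟨(nat_lit 144089), (Z.m (nat_lit 553751493079))⟩, ⟨(nat_lit 1934740355188434176), (nat_lit 1934740355188434176), (nat_lit 281474976710656), (nat_lit 281474976710656), (nat_lit 299825921717538), (nat_lit 263124031703774)⟩),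
     (⟨(nat_lit 147821), (Z.m (nat_lit 403382880011))⟩, ⟨(nat_lit 1226972594641108992), (nat_lit 1226972594641108992), (nat_lit 281474976710656), (nat_lit 281474976710656), (nat_lit 295454486274018), (nat_lit 267495467147294)⟩),
     (⟨(nat_lit 24132), (Z.m (nat_lit 110652467048))⟩, ⟨(nat_lit 446820421157264064), (nat_lit 446820421157264064), (nat_lit 281474976710656), (nat_lit 281474976710656), (nat_lit 295716275447154), (nat_lit 267233677974158)⟩),
     (⟨(nat_lit 151476), (Z.m (nat_lit 408881541470))⟩, ⟨(nat_lit 1321424671996011520), (nat_lit 1321424671996011520), (nat_lit 281474976710656), (nat_lit 281474976710656), (nat_lit 297180799163546), (nat_lit 265769154257766)⟩)],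
    [(⟨(nat_lit 56506), (Z.m (nat_lit 339435965177))⟩, ⟨(nat_lit 2089406897418523392), (nat_lit 2089406897418523392), (nat_lit 281474976710656), (nat_lit 281474976710656), (nat_lit 295635409842348), (nat_lit 267314543578964)⟩),
     (⟨(nat_lit 6036), (Z.m (nat_lit 62383081415))⟩, ⟨(nat_lit 198008847636652704), (nat_lit 198008847636652704), (nat_lit 281474976710656), (nat_lit 281474976710656), (nat_lit 299887670067660), (nat_lit 263062283353652)⟩),
     (⟨(nat_lit 116939), (Z.m (nat_lit 456596675631))⟩, ⟨(nat_lit 1993468929763783424), (nat_lit 1993468929763783424), (nat_lit 281474976710656), (nat_lit 281474976710656), (nat_lit 302407329892076), (nat_lit 260542623529236)⟩),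
     (⟨(nat_lit 95760), (Z.m (nat_lit 323694676343))⟩, ⟨(nat_lit 1216686775645990912), (nat_lit 1216686775645990912), (nat_lit 281474976710656), (nat_lit 281474976710656), (nat_lit 297876496682624), (nat_lit 265073456738688)⟩),
     (⟨(nat_lit 7314), (Z.m (nat_lit 100795543871))⟩, ⟨(nat_lit 651725666511280128), (nat_lit 651725666511280128), (nat_lit 281474976710656), (nat_lit 281474976710656), (nat_lit 298561764192254), (nat_lit 264388189229058)⟩)],
    [(⟨(nat_lit 42726), (Z.m (nat_lit 275221673177))⟩, ⟨(nat_lit 2054833441638861312), (nat_lit 2054833441638861312), (nat_lit 281474976710656), (nat_lit 281474976710656), (nat_lit 296228586477258), (nat_lit 266721366944056)⟩),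
     (⟨(nat_lit 3437), (Z.m (nat_lit 49356186596))⟩, ⟨(nat_lit 196984419770693952), (nat_lit 196984419770693952), (nat_lit 281474976710656), (nat_lit 281474976710656), (nat_lit 300325078846148), (nat_lit 262624874575164)⟩),
     (⟨(nat_lit 89365), (Z.m (nat_lit 381039876472))⟩, ⟨(nat_lit 2106063666485753600), (nat_lit 2106063666485753600), (nat_lit 281474976710656), (nat_lit 281474976710656), (nat_lit 303110423065634), (nat_lit 259839530355678)⟩),
     (⟨(nat_lit 43290), (Z.m (nat_lit 234214659022))⟩, ⟨(nat_lit 1267808090395932672), (nat_lit 1267808090395932672), (nat_lit 281474976710656), (nat_lit 281474976710656), (nat_lit 298580887155446), (nat_lit 264369066265866)⟩),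
     (⟨(nat_lit 12809), (Z.m (nat_lit 79031876801))⟩, ⟨(nat_lit 378365690640088704), (nat_lit 378365690640088704), (nat_lit 281474976710656), (nat_lit 281474976710656), (nat_lit 298532042266040), (nat_lit 264417911155272)⟩),
     (⟨(nat_lit 61627), (Z.m (nat_lit 261680547466))⟩, ⟨(nat_lit 1348802132948650496), (nat_lit 1348802132948650496), (nat_lit 281474976710656), (nat_lit 281474976710656), (nat_lit 299793832837226), (nat_lit 263156120584086)⟩)]] = true := by decide +kernel

end Pool.Agent.C75W.P10.PZ14b
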